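import Pool.Agent.Lib.MP_d74a39_nt.Defs

open TensorProduct

namespace Pool.Agent.Lib.MP_d74a39_nt

theorem proj_gen (G : Type) [CommGroup G] [Fintype G] (R : Type) [CommRing R]
    [Algebra (MonoidAlgebra ℤ G) R] (hu : IsUnit ((Fintype.card G : ℕ) : R)) (X : Type)
    [AddCommGroup X] [Module (MonoidAlgebra ℤ G) X] [Module.Free ℤ X] :
    Module.Projective R (R ⊗[MonoidAlgebra ℤ G] X) := by
  refine Module.Projective.of_lifting_property'' fun f hf => ?_
  obtain ⟨u, hu⟩ := hu.exists_left_inv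
  obtain ⟨ψ₀, h₀⟩ := Module.projective_lifting_property f.toAddMonoidHom.toIntLinearMap
    (TensorProduct.mk (MonoidAlgebra ℤ G) R X 1).toAddMonoidHom.toIntLinearMap hf
  have h₀' : ∀ x, f (ψ₀ x) = (1 : R) ⊗ₜ x := fun x => LinearMap.congr_fun h₀ x
  let α : G → R := fun g => algebraMap (MonoidAlgebra ℤ G) R (MonoidAlgebra.of ℤ G g)
  let ψ₁ : X →+ ((R ⊗[MonoidAlgebra ℤ G] X) →₀ R) := AddMonoidHom.mk'
    (fun x => u • ∑ g : G, α g⁻¹ • ψ₀ (MonoidAlgebra.of ℤ G g • x)) fun x y => by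
      simp only [smul_add, map_add, Finset.sum_add_distrib]
  have e₁ : ∀ x, ψ₁ x = u • ∑ g : G, α g⁻¹ • ψ₀ (MonoidAlgebra.of ℤ G g • x) := fun _ => rfl
  have hlin : ∀ (c : MonoidAlgebra ℤ G) (x : X),
      ψ₁ (c • x) = algebraMap (MonoidAlgebra ℤ G) R c • ψ₁ x := by
    intro c
    induction c using MonoidAlgebra.induction_on with
    | of m =>
      intro x
      rw [e₁, e₁, smul_comm _ u]
      refine congrArg (fun v => u • v) ?_
      rw [Finset.smul_sum, ← Equiv.sum_comp (Equiv.mulRight m⁻¹)]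
      refine Finset.sum_congr rfl fun g _ => ?_
      rw [smul_smul, smul_smul, ← map_mul, ← map_mul, ← map_mul]
      simp only [Equiv.coe_mulRight, inv_mul_cancel_right, mul_inv_rev, inv_inv, α]
    | add a b ha hb =>
      intro x
      rw [add_smul, map_add, ha, hb, map_add, add_smul]
    | smul r a ha =>
      intro x
      rw [zsmul_eq_mul, mul_smul, Int.cast_smul_eq_zsmul, map_zsmul, ha, map_mul, mul_smul,
        map_intCast, Int.cast_smul_eq_zsmul]
  let ψ₂ : X →ₗ[MonoidAlgebra ℤ G] ((R ⊗[MonoidAlgebra ℤ G] X) →₀ R) :=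
    { toFun := ψ₁
      map_add' := map_add ψ₁
      map_smul' := fun c x => by rw [hlin, algebraMap_smul]; rfl }
  have hf₁ : ∀ x, f (ψ₁ x) = (1 : R) ⊗ₜ x := fun x => by
    have : ∀ g : G, f (α g⁻¹ • ψ₀ (MonoidAlgebra.of ℤ G g • x)) = (1 : R) ⊗ₜ x := fun g => by
      rw [map_smul, h₀', tmul_smul, algebraMap_smul, smul_smul, ← map_mul, inv_mul_cancel, map_one,
        one_smul]
    rw [e₁, map_smul, map_sum]
    simp only [this]
    rw [Finset.sum_const, Finset.card_univ, ← Nat.cast_smul_eq_nsmul R, smul_smul, hu, one_smul]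
  refine ⟨ψ₂.liftBaseChange R, ?_⟩
  refine LinearMap.ext fun z => ?_
  induction z using TensorProduct.induction_on with
  | zero => simp
  | tmul r x =>
    rw [LinearMap.comp_apply, LinearMap.liftBaseChange_tmul, map_smul]
    change r • f (ψ₁ x) = r ⊗ₜ x
    rw [hf₁, smul_tmul', smul_eq_mul, mul_one]
  | add a b ha hb => rw [map_add, ha, hb, map_add]

theorem proj (p : ℕ) (hp : p.Prime) (hpu : IsUnit (p : Rp p)) (X : Type) [AddCommGroup X]
    [Module (Lam p) X] [Module.Free ℤ X] :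
    Module.Projective (Rp p) (Rp p ⊗[Lam p] X) := by
  have : NeZero p := ⟨hp.ne_zero⟩
  exact proj_gen (Multiplicative (ZMod p)) (Rp p) (by simpa using hpu) X

end Pool.Agent.Lib.MP_d74a39_nt
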