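import Pool.Agent.Lib.MP_d74a39_nt.SchA

open Function

namespace Pool.Agent.Lib.MP_d74a39_nt

theorem sch_retr (R : Type) [CommRing R] (M T : Type) [AddCommGroup M] [AddCommGroup T]
    [Module R M] [Module R T] [Module.Finite R T] [Module.Projective R T]
    (a : M →ₗ[R] T) (s : T →ₗ[R] M) (h : ∀ x, s (a x) = x) :
    Module.Finite R M ∧ Module.Projective R M :=
  ⟨Module.Finite.of_surjective s fun x => ⟨a x, h x⟩,
    Module.Projective.of_split a s (LinearMap.ext h)⟩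

theorem sch_fst (R : Type) [CommRing R] (M N T : Type) [AddCommGroup M] [AddCommGroup N]
    [AddCommGroup T] [Module R M] [Module R N] [Module R T] [Module.Finite R T]
    [Module.Projective R T] (e : (M × N) ≃ₗ[R] T) :
    Module.Finite R M ∧ Module.Projective R M :=
  sch_retr R M T (e.toLinearMap ∘ₗ LinearMap.inl R M N)
    (LinearMap.fst R M N ∘ₗ e.symm.toLinearMap) fun x => by simp

theorem sch_pi (R : Type) [CommRing R] (p : ℕ) (hp : p ≠ 0) (M T : Type) [AddCommGroup M]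
    [AddCommGroup T] [Module R M] [Module R T] [Module.Finite R T]
    [Module.Projective R T] (e : T ≃ₗ[R] (Fin p → M)) :
    Module.Finite R M ∧ Module.Projective R M :=
  sch_retr R M T (e.symm.toLinearMap ∘ₗ LinearMap.pi fun _ => LinearMap.id)
    (LinearMap.proj (⟨0, Nat.pos_of_ne_zero hp⟩ : Fin p) ∘ₗ e.toLinearMap) fun x => by simp

theorem sch (R : Type) [CommRing R] (p : ℕ) (hp : p ≠ 0)
    (U A B X P₀ P₁ Q₀ Q₁ U₀ X₀ : Type)
    [AddCommGroup U] [AddCommGroup A] [AddCommGroup B] [AddCommGroup X] [AddCommGroup P₀]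
    [AddCommGroup P₁] [AddCommGroup Q₀] [AddCommGroup Q₁] [AddCommGroup U₀] [AddCommGroup X₀]
    [Module R U] [Module R A] [Module R B] [Module R X] [Module R P₀] [Module R P₁]
    [Module R Q₀] [Module R Q₁] [Module R U₀] [Module R X₀]
    [Module.Finite R P₀] [Module.Finite R P₁] [Module.Finite R Q₀] [Module.Finite R Q₁]
    [Module.Projective R P₀] [Module.Projective R P₁] [Module.Projective R Q₀]
    [Module.Projective R Q₁] [Module.Projective R X]
    (i : U →ₗ[R] A) (d : A →ₗ[R] B) (π : B →ₗ[R] X)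
    (hi : Injective i) (hid : Exact i d) (hdπ : Exact d π) (hπ : Surjective π)
    (f : P₁ →ₗ[R] P₀) (g : P₀ →ₗ[R] A) (hf : Injective f) (hfg : Exact f g) (hg : Surjective g)
    (f' : Q₁ →ₗ[R] Q₀) (g' : Q₀ →ₗ[R] B) (hf' : Injective f') (hfg' : Exact f' g')
    (hg' : Surjective g')
    (eU : U ≃ₗ[R] (Fin p → U₀)) (eX : X ≃ₗ[R] (Fin p → X₀)) :
    ∃ (N N' : Type) (_ : AddCommGroup N) (_ : AddCommGroup N') (_ : Module R N)
      (_ : Module R N'), Module.Finite R N ∧ Module.Finite R N' ∧ Module.Projective R N ∧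
      Module.Projective R N' ∧
      Nonempty ((P₀ × Q₁ × (Fin p → N)) ≃ₗ[R] (P₁ × Q₀ × (Fin p → N'))) := by
  let P' : Submodule R P₀ := (LinearMap.range i).comap g
  let Q' : Submodule R Q₀ := (LinearMap.range d).comap g'
  let f₁ : P₁ →ₗ[R] P' := f.codRestrict P' fun x => by
    show g (f x) ∈ LinearMap.range i
    rw [hfg.apply_apply_eq_zero]
    exact zero_mem _
  let ei := LinearEquiv.ofInjective i hi
  let g₁ : P' →ₗ[R] U := ei.symm.toLinearMap ∘ₗ
    (g ∘ₗ P'.subtype).codRestrict (LinearMap.range i) fun x => x.2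
  have hg₁ : ∀ x : P', i (g₁ x) = g x := fun x =>
    congrArg Subtype.val (ei.apply_symm_apply ⟨g x, x.2⟩)
  have hf₁ : Injective f₁ := fun x y h => hf (congrArg Subtype.val h)
  have hx₁ : Exact f₁ g₁ := fun x => by
    constructor
    · intro h
      have h2 := hg₁ x
      rw [h, map_zero] at h2
      obtain ⟨y, hy⟩ := (hfg x).1 h2.symm
      exact ⟨y, Subtype.ext hy⟩
    · rintro ⟨y, rfl⟩
      apply hi
      rw [hg₁, map_zero]
      exact hfg.apply_apply_eq_zero y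
  have hs₁ : Surjective g₁ := fun u => by
    obtain ⟨x, hx⟩ := hg (i u)
    exact ⟨⟨x, ⟨u, hx.symm⟩⟩, hi ((hg₁ _).trans hx)⟩
  let g₂ : P₀ →ₗ[R] LinearMap.range d := d.rangeRestrict ∘ₗ g
  have hx₂ : Exact P'.subtype g₂ := fun x => by
    constructor
    · intro h
      exact ⟨⟨x, (hid (g x)).1 (congrArg Subtype.val h)⟩, rfl⟩
    · rintro ⟨y, rfl⟩
      exact Subtype.ext ((hid (g y)).2 y.2)
  have hs₂ : Surjective g₂ := by
    rintro ⟨_, a, rfl⟩
    obtain ⟨x, rfl⟩ := hg a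
    exact ⟨x, rfl⟩
  let f₃ : Q₁ →ₗ[R] Q' := f'.codRestrict Q' fun x => by
    show g' (f' x) ∈ LinearMap.range d
    rw [hfg'.apply_apply_eq_zero]
    exact zero_mem _
  let g₃ : Q' →ₗ[R] LinearMap.range d :=
    (g' ∘ₗ Q'.subtype).codRestrict (LinearMap.range d) fun x => x.2
  have hf₃ : Injective f₃ := fun x y h => hf' (congrArg Subtype.val h)
  have hx₃ : Exact f₃ g₃ := fun x => by
    constructor
    · intro h
      obtain ⟨y, hy⟩ := (hfg' x).1 (congrArg Subtype.val h)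
      exact ⟨y, Subtype.ext hy⟩
    · rintro ⟨y, rfl⟩
      exact Subtype.ext (hfg'.apply_apply_eq_zero y)
  have hs₃ : Surjective g₃ := by
    rintro ⟨b, hb⟩
    obtain ⟨x, rfl⟩ := hg' b
    exact ⟨⟨x, hb⟩, rfl⟩
  have hx₄ : Exact Q'.subtype (π ∘ₗ g') := fun x => by
    constructor
    · intro h
      exact ⟨⟨x, (hdπ (g' x)).1 h⟩, rfl⟩
    · rintro ⟨y, rfl⟩
      exact (hdπ (g' y)).2 y.2
  have hs₄ : Surjective (π ∘ₗ g') := hπ.comp hg'
  obtain ⟨e₄⟩ := schanuel R X Q₀ X Q' PUnit Q'.subtype (π ∘ₗ g') Q'.injective_subtype hx₄ hs₄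
    0 LinearMap.id (fun _ _ _ => rfl) (fun x => ⟨fun h => ⟨0, h.symm⟩, by rintro ⟨_, rfl⟩; rfl⟩)
    surjective_id
  have e₄' : (Q' × X) ≃ₗ[R] Q₀ := e₄.trans LinearEquiv.prodUnique
  obtain ⟨_, _⟩ := sch_fst R Q' X Q₀ e₄'
  obtain ⟨e₂⟩ := schanuel R (LinearMap.range d) P₀ Q' P' Q₁ P'.subtype g₂ P'.injective_subtype
    hx₂ hs₂ f₃ g₃ hf₃ hx₃ hs₃
  obtain ⟨_, _⟩ := sch_fst R P' Q' (P₀ × Q₁) e₂
  have : Module.Finite R U₀ := Module.Finite.of_surjective
    (LinearMap.proj (⟨0, Nat.pos_of_ne_zero hp⟩ : Fin p) ∘ₗ eU.toLinearMap ∘ₗ g₁) fun u => by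
      obtain ⟨x, hx⟩ := hs₁ (eU.symm fun _ => u)
      exact ⟨x, by simp [hx]⟩
  obtain ⟨n, q, hq⟩ := Module.Finite.exists_fin' R U₀
  let f₅ : (Fin p → LinearMap.ker q) →ₗ[R] (Fin p → Fin n → R) :=
    (LinearMap.ker q).subtype.compLeft (Fin p)
  let g₅ : (Fin p → Fin n → R) →ₗ[R] U := eU.symm.toLinearMap ∘ₗ q.compLeft (Fin p)
  have hf₅ : Injective f₅ := fun x y h => funext fun k => Subtype.ext (congrFun h k)
  have hx₅ : Exact f₅ g₅ := fun x => by
    have h0 : g₅ x = 0 ↔ ∀ k, q (x k) = 0 :=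
      (eU.symm.map_eq_zero_iff (x := fun k => q (x k))).trans funext_iff
    rw [h0]
    constructor
    · intro h
      exact ⟨fun k => ⟨x k, h k⟩, rfl⟩
    · rintro ⟨y, rfl⟩ k
      exact (y k).2
  have hs₅ : Surjective g₅ := fun u => by
    choose x hx using fun k => hq (eU u k)
    refine ⟨x, ?_⟩
    show eU.symm (fun k => q (x k)) = u
    rw [funext hx]
    exact eU.symm_apply_apply u
  obtain ⟨e₅⟩ := schanuel R U P' (Fin p → Fin n → R) P₁ (Fin p → LinearMap.ker q) f₁ g₁ hf₁ hx₁ hs₁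
    f₅ g₅ hf₅ hx₅ hs₅
  obtain ⟨_, _⟩ := sch_fst R (Fin p → LinearMap.ker q) P' (P₁ × (Fin p → Fin n → R))
    ((LinearEquiv.prodComm R _ _).trans e₅.symm)
  obtain ⟨_, _⟩ := sch_pi R p hp (LinearMap.ker q) _ (LinearEquiv.refl R _)
  have : Module.Finite R X := Module.Finite.of_surjective _ hs₄
  obtain ⟨_, _⟩ := sch_pi R p hp X₀ X eX
  let e₆ : (Fin p → LinearMap.ker q × X₀) ≃ₗ[R] ((Fin p → LinearMap.ker q) × (Fin p → X₀)) :=
    { toFun := fun x => (fun k => (x k).1, fun k => (x k).2)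
      invFun := fun y k => (y.1 k, y.2 k)
      map_add' := fun _ _ => rfl
      map_smul' := fun _ _ => rfl
      left_inv := fun _ => rfl
      right_inv := fun _ => rfl }
  refine ⟨LinearMap.ker q × X₀, Fin n → R, inferInstance, inferInstance, inferInstance,
    inferInstance, inferInstance, inferInstance, inferInstance, inferInstance, ⟨?_⟩⟩
  exact (LinearEquiv.prodAssoc R _ _ _).symm ≪≫ₗ
    (e₂.symm.prodCongr (e₆ ≪≫ₗ (LinearEquiv.refl R _).prodCongr eX.symm)) ≪≫ₗ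
    LinearEquiv.prodProdProdComm R _ _ _ _ ≪≫ₗ (e₅.symm.prodCongr e₄') ≪≫ₗ
    LinearEquiv.prodAssoc R _ _ _ ≪≫ₗ
    (LinearEquiv.refl R _).prodCongr (LinearEquiv.prodComm R _ _)

end Pool.Agent.Lib.MP_d74a39_nt
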