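import Pool.Agent.Lib.MP_d74a39_nt.Eig
import Pool.Agent.Lib.MP_d74a39_nt.Sch
import Pool.Agent.Lib.MP_d74a39_nt.Proj

open Function TensorProduct

namespace Pool.Agent.Lib.MP_d74a39_nt

theorem gen_pow (p : ℕ) : gen p ^ p = 1 := by
  unfold gen
  rw [← map_pow, ← ofAdd_nsmul, nsmul_eq_mul, mul_one, ZMod.natCast_self, ofAdd_zero, map_one]

theorem zeta_pow (p : ℕ) : (algebraMap (Lam p) (Rp p) (gen p)) ^ p = 1 := by
  rw [← map_pow, gen_pow, map_one]

theorem zeta_unit (p : ℕ) : IsUnit (1 - algebraMap (Lam p) (Rp p) (gen p)) := by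
  have h := IsLocalization.Away.algebraMap_isUnit (S := Rp p) (1 - gen p)
  rwa [map_sub, map_one] at h

theorem p_unit (p : ℕ) (hp : p.Prime) : IsUnit (p : Rp p) := by
  obtain ⟨r, hr⟩ := exists_add_pow_prime_eq hp (1 : Rp p)
    (algebraMap (Lam p) (Rp p) (gen p) - 1)
  rw [add_sub_cancel, zeta_pow, one_pow] at hr
  have hu : IsUnit ((algebraMap (Lam p) (Rp p) (gen p) - 1) ^ p) := by
    refine IsUnit.pow _ ?_
    have h := (zeta_unit p).neg
    rwa [neg_sub] at h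
  have h2 : (algebraMap (Lam p) (Rp p) (gen p) - 1) ^ p =
      (p : Rp p) * (-((algebraMap (Lam p) (Rp p) (gen p) - 1) * r)) := by
    linear_combination -hr
  rw [h2] at hu
  exact isUnit_of_mul_isUnit_left hu

theorem power (p : ℕ) (hp : p.Prime) (U : Type) [AddCommGroup U] [Module (Lam p) U]
    (α : Module.End (Lam p) U) (β : U ≃ₗ[Lam p] U) (hα : α ^ p = 1)
    (h : ∀ u, α (β u) = gen p • β (α u)) :
    ∃ M₀ : Submodule (Rp p) (Rp p ⊗[Lam p] U),
      Nonempty ((Rp p ⊗[Lam p] U) ≃ₗ[Rp p] (Fin p → M₀)) := by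
  refine eig (Rp p) p hp _ (zeta_pow p) (zeta_unit p) (p_unit p hp) _
    (α.baseChange (Rp p)) (β.baseChange (Lam p) (Rp p) U U) ?_ ?_
  · rw [← LinearMap.baseChange_pow, hα, LinearMap.baseChange_one]
  · intro m
    induction m using TensorProduct.induction_on with
    | zero => simp
    | add x y hx hy => simp only [map_add, smul_add, hx, hy]
    | tmul r u =>
      simp only [LinearEquiv.baseChange_tmul, LinearMap.baseChange_tmul, h, algebraMap_smul,
        TensorProduct.tmul_smul]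

theorem core (p : ℕ) (hp : p.Prime) (U A B X P₀ P₁ Q₀ Q₁ : Type)
    [AddCommGroup U] [AddCommGroup A] [AddCommGroup B] [AddCommGroup X] [AddCommGroup P₀]
    [AddCommGroup P₁] [AddCommGroup Q₀] [AddCommGroup Q₁]
    [Module (Lam p) U] [Module (Lam p) A] [Module (Lam p) B] [Module (Lam p) X]
    [Module (Lam p) P₀] [Module (Lam p) P₁] [Module (Lam p) Q₀] [Module (Lam p) Q₁]
    [Module.Finite (Lam p) P₀] [Module.Finite (Lam p) P₁] [Module.Finite (Lam p) Q₀]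
    [Module.Finite (Lam p) Q₁] [Module.Projective (Lam p) P₀] [Module.Projective (Lam p) P₁]
    [Module.Projective (Lam p) Q₀] [Module.Projective (Lam p) Q₁] [Module.Free ℤ X]
    (hU : ∃ (α : Module.End (Lam p) U) (β : U ≃ₗ[Lam p] U), α ^ p = 1 ∧
      ∀ u, α (β u) = gen p • β (α u))
    (hX : ∃ (α : Module.End (Lam p) X) (β : X ≃ₗ[Lam p] X), α ^ p = 1 ∧
      ∀ u, α (β u) = gen p • β (α u))
    (i : U →ₗ[Lam p] A) (d : A →ₗ[Lam p] B) (π : B →ₗ[Lam p] X)
    (hi : Injective i) (hid : Exact i d) (hdπ : Exact d π) (hπ : Surjective π)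
    (f : P₁ →ₗ[Lam p] P₀) (g : P₀ →ₗ[Lam p] A) (hf : Injective f) (hfg : Exact f g)
    (hg : Surjective g)
    (f' : Q₁ →ₗ[Lam p] Q₀) (g' : Q₀ →ₗ[Lam p] B) (hf' : Injective f') (hfg' : Exact f' g')
    (hg' : Surjective g') :
    ∃ (N N' : Type) (_ : AddCommGroup N) (_ : AddCommGroup N') (_ : Module (Rp p) N)
      (_ : Module (Rp p) N'), Module.Finite (Rp p) N ∧ Module.Finite (Rp p) N' ∧
      Module.Projective (Rp p) N ∧ Module.Projective (Rp p) N' ∧
      Nonempty (((Rp p ⊗[Lam p] P₀) × (Rp p ⊗[Lam p] Q₁) × (Fin p → N)) ≃ₗ[Rp p]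
        ((Rp p ⊗[Lam p] P₁) × (Rp p ⊗[Lam p] Q₀) × (Fin p → N'))) := by
  obtain ⟨α, β, h1, h2⟩ := hU
  obtain ⟨α', β', h1', h2'⟩ := hX
  obtain ⟨U₀, ⟨eU⟩⟩ := power p hp U α β h1 h2
  obtain ⟨X₀, ⟨eX⟩⟩ := power p hp X α' β' h1' h2'
  have := proj p hp (p_unit p hp) X
  have : Module.Flat (Lam p) (Rp p) := IsLocalization.flat (Rp p) (Submonoid.powers (1 - gen p))
  exact sch (Rp p) p hp.ne_zero (Rp p ⊗[Lam p] U) (Rp p ⊗[Lam p] A) (Rp p ⊗[Lam p] B)
    (Rp p ⊗[Lam p] X) (Rp p ⊗[Lam p] P₀) (Rp p ⊗[Lam p] P₁) (Rp p ⊗[Lam p] Q₀)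
    (Rp p ⊗[Lam p] Q₁) U₀ X₀ (i.baseChange (Rp p)) (d.baseChange (Rp p)) (π.baseChange (Rp p))
    (Module.Flat.lTensor_preserves_injective_linearMap (M := Rp p) i hi)
    (Module.Flat.lTensor_exact (Rp p) hid) (Module.Flat.lTensor_exact (Rp p) hdπ)
    (LinearMap.lTensor_surjective (Rp p) hπ)
    (f.baseChange (Rp p)) (g.baseChange (Rp p))
    (Module.Flat.lTensor_preserves_injective_linearMap (M := Rp p) f hf)
    (Module.Flat.lTensor_exact (Rp p) hfg) (LinearMap.lTensor_surjective (Rp p) hg)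
    (f'.baseChange (Rp p)) (g'.baseChange (Rp p))
    (Module.Flat.lTensor_preserves_injective_linearMap (M := Rp p) f' hf')
    (Module.Flat.lTensor_exact (Rp p) hfg') (LinearMap.lTensor_surjective (Rp p) hg') eU eX

end Pool.Agent.Lib.MP_d74a39_nt
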