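import Mathlib

open NumberField

namespace Pool.Agent.Lib.MP_d74a39_nt

/-- The integral group ring of the cyclic group of order `p`. -/
abbrev Lam (p : ℕ) : Type := MonoidAlgebra ℤ (Multiplicative (ZMod p))

/-- The generator of the cyclic group, as an element of the group ring. -/
noncomputable def gen (p : ℕ) : Lam p :=
  MonoidAlgebra.of ℤ (Multiplicative (ZMod p)) (Multiplicative.ofAdd 1)

/-- The group ring with `1 - gen` inverted; for `p` prime this is `ℤ[ζ_p, 1/p]`. -/
abbrev Rp (p : ℕ) : Type := Localization.Away (1 - gen p)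

/-- `x` is integral at every maximal ideal outside `T`. -/
def IntegralOutside {F : Type} [Field F] (T : Set (Ideal (𝓞 F))) (x : F) : Prop :=
  ∀ P : Ideal (𝓞 F), P.IsMaximal → P ∉ T → ∃ r s : 𝓞 F, s ∉ P ∧ x * (s : F) = (r : F)

/-- `x` is an `S`-unit, where `T` is the set of finite places of `S`. -/
def IsSUnit {F : Type} [Field F] (T : Set (Ideal (𝓞 F))) (x : Fˣ) : Prop :=
  IntegralOutside T (x : F) ∧ IntegralOutside T ((x⁻¹ : Fˣ) : F)

end Pool.Agent.Lib.MP_d74a39_nt
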