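import Mathlib

namespace Pool.Agent.Lib.MP_d74a39_nt

theorem eig (R : Type) [CommRing R] (p : ℕ) (hp : p.Prime) (ζ : R) (hζ : ζ ^ p = 1)
    (hu : IsUnit (1 - ζ)) (hpu : IsUnit (p : R)) (M : Type) [AddCommGroup M] [Module R M]
    (a : Module.End R M) (b : M ≃ₗ[R] M) (ha : a ^ p = 1)
    (hab : ∀ m, a (b m) = ζ • b (a m)) :
    ∃ M₀ : Submodule R M, Nonempty (M ≃ₗ[R] (Fin p → M₀)) := by
  classical
  obtain ⟨q, hq⟩ := hpu.exists_left_inv
  obtain ⟨r, hr⟩ : ∃ r, p = r + 1 := ⟨p - 1, by have := hp.pos; omega⟩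
  have hp1 : ∀ n : ℕ, (ζ ^ n) ^ p = 1 := fun n => by
    rw [← pow_mul, mul_comm, pow_mul, hζ, one_pow]
  have H : ∀ n : ℕ, ¬ p ∣ n → ∑ k ∈ Finset.range p, (ζ ^ n) ^ k = 0 := by
    intro n hn
    have hc : Nat.Coprime n p := ((Nat.Prime.coprime_iff_not_dvd hp).2 hn).symm
    obtain ⟨k, hk⟩ : ∃ k, n * k % p = 1 := by
      obtain ⟨k, -, hk⟩ := Nat.exists_mul_mod_eq_one_of_coprime hc hp.one_lt
      exact ⟨k, hk⟩
    have h1 : (ζ ^ n) ^ k = ζ := by
      rw [← pow_mul, pow_eq_pow_mod _ hζ, hk, pow_one]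
    have h2 : IsUnit (1 - ζ ^ n) := by
      have h := mul_neg_geom_sum (ζ ^ n) k
      rw [h1] at h
      exact isUnit_of_mul_isUnit_left (h ▸ hu)
    have h3 := mul_neg_geom_sum (ζ ^ n) p
    rw [hp1, sub_self] at h3
    exact (h2.mul_right_eq_zero).1 h3
  have hz : ∀ j : ℕ, ζ ^ (r * j + j) = 1 := fun j => by
    rw [show r * j + j = j * p by rw [hr]; ring, pow_mul, hp1]
  have hb : ∀ (j : ℕ) (m : M), a ((b ^ j) m) = ζ ^ j • (b ^ j) (a m) := by
    intro j
    induction j with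
    | zero => intro m; simp
    | succ j ih =>
      intro m
      have e : ∀ x, (b ^ (j + 1)) x = b ((b ^ j) x) := fun x => by rw [pow_succ']; rfl
      rw [e, e, hab, ih, map_smul, smul_smul, pow_succ']
  have K : ∀ (n i : ℕ) (x : M), a x = ζ ^ i • x → ∀ k : ℕ,
      ((ζ ^ n • a) ^ k) x = (ζ ^ (n + i)) ^ k • x := by
    intro n i x hx k
    induction k with
    | zero => simp
    | succ k ih =>
      rw [pow_succ' (ζ ^ n • a), Module.End.mul_apply, ih, map_smul, LinearMap.smul_apply, hx,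
        smul_smul, smul_smul]
      congr 1
      ring
  obtain ⟨S, hS⟩ : ∃ S : ℕ → Module.End R M,
      ∀ j, S j = ∑ k ∈ Finset.range p, (ζ ^ (r * j) • a) ^ k := ⟨_, fun _ => rfl⟩
  have hSa : ∀ (j : ℕ) (m : M), a (S j m) = ζ ^ j • S j m := by
    intro j m
    have h := mul_geom_sum (ζ ^ (r * j) • a) p
    rw [smul_pow, hp1, ha, one_smul, sub_self, ← hS] at h
    have h2 := LinearMap.congr_fun h m
    rw [Module.End.mul_apply, LinearMap.sub_apply, LinearMap.smul_apply, Module.End.one_apply,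
      LinearMap.zero_apply, sub_eq_zero] at h2
    conv_rhs => rw [← h2]
    rw [smul_smul, ← pow_add, add_comm, hz, one_smul]
  have hsum : ∀ m : M, ∑ j ∈ Finset.range p, S j m = (p : R) • m := by
    intro m
    have e : ∀ j : ℕ, S j m = ∑ k ∈ Finset.range p, (ζ ^ (r * k)) ^ j • (a ^ k) m := by
      intro j
      rw [hS, LinearMap.sum_apply]
      refine Finset.sum_congr rfl fun k _ => ?_
      rw [smul_pow, LinearMap.smul_apply]
      congr 1
      ring
    rw [Finset.sum_congr rfl fun j _ => e j, Finset.sum_comm, Finset.sum_eq_single 0]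
    · rw [← Finset.sum_smul]
      simp
    · intro k hk hk0
      rw [← Finset.sum_smul, H, zero_smul]
      intro hd
      have h2 := hp.two_le
      rcases (Nat.Prime.dvd_mul hp).1 hd with h | h
      · have := Nat.le_of_dvd (by omega) h
        omega
      · have := Nat.le_of_dvd (by omega) h
        have := Finset.mem_range.1 hk
        omega
    · intro h
      exact absurd (Finset.mem_range.2 hp.pos) h
  let M₀ : Submodule R M := LinearMap.ker (a - 1)
  have hM : ∀ x : M, x ∈ M₀ ↔ a x = x := fun x => by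
    rw [LinearMap.mem_ker, LinearMap.sub_apply, Module.End.one_apply, sub_eq_zero]
  let Φ : (Fin p → M₀) →ₗ[R] M :=
    ∑ j : Fin p, ((b ^ (j : ℕ) : M ≃ₗ[R] M) : M →ₗ[R] M) ∘ₗ M₀.subtype ∘ₗ LinearMap.proj j
  have hΦ : ∀ v : Fin p → M₀, Φ v = ∑ j : Fin p, (b ^ (j : ℕ)) (v j : M) := fun v => by
    simp only [Φ, LinearMap.sum_apply]
    rfl
  refine ⟨M₀, ⟨(LinearEquiv.ofBijective Φ ⟨?_, ?_⟩).symm⟩⟩
  · rw [injective_iff_map_eq_zero]
    intro v hv
    funext j
    have h := congrArg (S j) hv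
    have e : ∀ i : Fin p, S j ((b ^ (i : ℕ)) (v i : M)) =
        (∑ k ∈ Finset.range p, (ζ ^ (r * j + i)) ^ k) • (b ^ (i : ℕ)) (v i : M) := by
      intro i
      rw [hS, LinearMap.sum_apply, Finset.sum_smul]
      refine Finset.sum_congr rfl fun k _ => K _ _ _ ?_ k
      rw [hb, (hM _).1 (v i).2]
    rw [hΦ, map_sum, map_zero, Finset.sum_congr rfl fun i _ => e i, Finset.sum_eq_single j] at h
    · have h2 := congrArg (fun x => q • x) h
      simp only [hz, one_pow, Finset.sum_const, Finset.card_range, nsmul_eq_mul, mul_one,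
        smul_smul, hq, one_smul, smul_zero] at h2
      exact Subtype.ext ((LinearEquiv.map_eq_zero_iff _).1 h2)
    · intro i _ hij
      rw [H, zero_smul]
      intro hd
      have h0 : ∀ n : ℕ, p ∣ r * n + n := fun n => ⟨n, by rw [hr]; ring⟩
      have h1 := h0 j
      have h3 : r * j + i ≡ r * j + j [MOD p] :=
        ((Nat.modEq_zero_iff_dvd).2 hd).trans ((Nat.modEq_zero_iff_dvd).2 h1).symm
      exact hij (Fin.ext ((Nat.ModEq.add_left_cancel' _ h3).eq_of_lt_of_lt i.2 j.2))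
    · intro h
      exact absurd (Finset.mem_univ j) h
  · intro m
    refine ⟨fun j => ⟨(b ^ (j : ℕ)).symm (S j (q • m)), (hM _).2 ?_⟩, ?_⟩
    · have h := hb j ((b ^ (j : ℕ)).symm (S j (q • m)))
      rw [LinearEquiv.apply_symm_apply, hSa] at h
      have h2 := congrArg (fun x => ζ ^ (r * j) • x) h
      simp only [smul_smul, ← pow_add, hz, one_smul] at h2
      exact ((LinearEquiv.symm_apply_eq _).2 h2).symm
    · rw [hΦ]
      simp only [LinearEquiv.apply_symm_apply]
      rw [Fin.sum_univ_eq_sum_range (fun j => S j (q • m)) p, hsum, smul_smul, mul_comm, hq,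
        one_smul]

end Pool.Agent.Lib.MP_d74a39_nt
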