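import Pool.Agent.Lib.MP_d74a39_nt.Defs

open Function TensorProduct NumberField Pointwise CategoryTheory

namespace Pool.Agent.Lib.MP_d74a39_nt

/-- `z` has order `p`, commutes with `a` and `b`, `a ^ p = 1` and `a b = z b a`. -/
def Heis {Γ : Type} [Group Γ] (p : ℕ) (a b z : Γ) : Prop :=
  orderOf z = p ∧ a ^ p = 1 ∧ a * b = z * b * a ∧ z * a = a * z ∧ z * b = b * z

section Modules

variable (R : Type) [CommRing R]

/-- Finitely generated projective. -/
def FgProj (P : ModuleCat.{0} R) : Prop :=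
  Module.Finite R P ∧ Module.Projective R P

/-- `0 → K → P → M → 0` is exact for some maps. -/
def ShortEx (K P M : ModuleCat.{0} R) : Prop :=
  ∃ (f : K →ₗ[R] P) (g : P →ₗ[R] M), Injective f ∧ Exact f g ∧ Surjective g

/-- `0 → P₁ → P₀ → A → 0` is exact for some maps, with `P₀`, `P₁` finitely generated projective. -/
def Resol (A P₀ P₁ : ModuleCat.{0} R) : Prop :=
  FgProj R P₀ ∧ FgProj R P₁ ∧ ShortEx R P₁ P₀ A

/-- `U` is additively identified with the subset `D` of `W`, and `g` acts on it as `φ`. -/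
def IsModOn (g : R) {W : Type} [AddCommGroup W] (φ : W → W) (D : Set W) (U : ModuleCat.{0} R) :
    Prop :=
  ∃ ι : U →+ W, Injective ι ∧ Set.range ι = D ∧ ∀ u, ι (g • u) = φ (ι u)

/-- The product of two modules. -/
def pr (M N : ModuleCat.{0} R) : ModuleCat.{0} R := ModuleCat.of R (M × N)

/-- The `n`-fold power of a module. -/
def pw (n : ℕ) (N : ModuleCat.{0} R) : ModuleCat.{0} R := ModuleCat.of R (Fin n → N)

variable (S : Type) [CommRing S] [Algebra R S]

/-- Base change. -/
noncomputable def bc (P : ModuleCat.{0} R) : ModuleCat.{0} S := ModuleCat.of S (S ⊗[R] P)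

/-- The class `[P₀] - [P₁] - [Q₀] + [Q₁]`, base changed to `S`, is `n` times an element. -/
def IsMultiple (n : ℕ) (P₀ P₁ Q₀ Q₁ : ModuleCat.{0} R) : Prop :=
  ∃ N N' : ModuleCat.{0} S, FgProj S N ∧ FgProj S N' ∧
    Nonempty (pr S (bc R S P₀) (pr S (bc R S Q₁) (pw S n N)) ≅
      pr S (bc R S P₁) (pr S (bc R S Q₀) (pw S n N')))

end Modules

/-- Infinite places, and ideals of the ring of integers (finite places are the maximal ones). -/
abbrev Place (F : Type) [Field F] : Type := InfinitePlace F ⊕ Ideal (𝓞 F)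

variable {K₀ F : Type} [Field K₀] [Field F] [Algebra K₀ F]

/-- The action of an automorphism on ideals. -/
def idealAct (s : F ≃ₐ[K₀] F) (P : Ideal (𝓞 F)) : Ideal (𝓞 F) := s • P

/-- The action of an automorphism on places. -/
def placeAct (s : F ≃ₐ[K₀] F) : Place F → Place F := Sum.map (fun v => s • v) (idealAct s)

/-- The action of an automorphism on formal sums of places. -/
noncomputable def divAct (s : F ≃ₐ[K₀] F) (c : Place F →₀ ℤ) : Place F →₀ ℤ :=
  Finsupp.mapDomain (placeAct s) c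

/-- The action of an automorphism on `Fˣ`, written additively. -/
def unitAct (s : F ≃ₐ[K₀] F) (w : Additive Fˣ) : Additive Fˣ :=
  Additive.ofMul (Units.map (s : F →* F) w.toMul)

variable (K₀) in
/-- `T` is a finite set of maximal ideals, stable under all automorphisms of `F` over `K₀`. -/
def GoodSet (T : Set (Ideal (𝓞 F))) : Prop :=
  T.Finite ∧ (∀ P ∈ T, P.IsMaximal) ∧ ∀ (s : F ≃ₐ[K₀] F), ∀ P ∈ T, idealAct s P ∈ T

/-- The `S`-units. -/
def sUnits (T : Set (Ideal (𝓞 F))) : Set (Additive Fˣ) := {w | IsSUnit T w.toMul}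

/-- The kernel of the augmentation on `ℤ[S]`, `S` the infinite places and `T`. -/
def degZero (T : Set (Ideal (𝓞 F))) : Set (Place F →₀ ℤ) :=
  {c | (∀ P, P ∉ T → c (Sum.inr P) = 0) ∧ (c.sum fun _ n => n) = 0}

end Pool.Agent.Lib.MP_d74a39_nt
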