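import Pool.Agent.Lib.MP_d74a39_nt.Op
import Pool.Agent.Lib.MP_d74a39_nt.Stmt

open Function NumberField Pointwise

namespace Pool.Agent.Lib.MP_d74a39_nt

variable {K₀ F : Type} [Field K₀] [Field F] [Algebra K₀ F]

theorem free_of_places [NumberField F] (T : Set (Ideal (𝓞 F))) (hT : T.Finite) (X : Type)
    [AddCommGroup X] (κ : X →+ (Place F →₀ ℤ)) (hκ : Injective κ)
    (hκr : Set.range κ = degZero T) : Module.Free ℤ X := by
  let S : Set (Place F) := Set.range Sum.inl ∪ Sum.inr '' T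
  have hS : S.Finite := (Set.finite_range _).union (hT.image _)
  have : Finite S := hS
  have hmem : ∀ x, κ.toIntLinearMap x ∈ Finsupp.supported ℤ ℤ S := by
    intro x
    have hx : κ x ∈ degZero T := hκr ▸ Set.mem_range_self x
    rw [Finsupp.mem_supported']
    rintro (v | P) hv
    · exact absurd (Or.inl ⟨v, rfl⟩) hv
    · exact hx.1 P (fun h => hv (Or.inr ⟨P, h, rfl⟩))
  have : Module.Finite ℤ (Finsupp.supported ℤ ℤ S) :=
    Module.Finite.equiv (Finsupp.supportedEquivFinsupp S).symm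
  have : Module.Finite ℤ X :=
    Module.Finite.of_injective (κ.toIntLinearMap.codRestrict _ hmem)
      (fun x y h => hκ (congrArg Subtype.val h))
  have : Module.IsTorsionFree ℤ X := Function.Injective.moduleIsTorsionFree κ hκ (by simp)
  infer_instance

theorem placeAct_one (v : Place F) : placeAct (1 : F ≃ₐ[K₀] F) v = v := by
  rcases v with v | P
  · exact congrArg Sum.inl (one_smul _ v)
  · exact congrArg Sum.inr (one_smul _ P)

theorem placeAct_mul (s t : F ≃ₐ[K₀] F) (v : Place F) :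
    placeAct (s * t) v = placeAct s (placeAct t v) := by
  rcases v with v | P
  · exact congrArg Sum.inl (mul_smul s t v)
  · exact congrArg Sum.inr (mul_smul s t P)

theorem not_mem_inv (T : Set (Ideal (𝓞 F)))
    (hT : ∀ (s : F ≃ₐ[K₀] F), ∀ P ∈ T, idealAct s P ∈ T) (s : F ≃ₐ[K₀] F) (P : Ideal (𝓞 F))
    (hP : P ∉ T) : s⁻¹ • P ∉ T := by
  intro h
  apply hP
  have h2 : s • s⁻¹ • P ∈ T := hT s _ h
  rwa [smul_inv_smul] at h2

theorem op_places (p : ℕ) (hp : p.Prime) (T : Set (Ideal (𝓞 F)))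
    (hT : ∀ (s : F ≃ₐ[K₀] F), ∀ P ∈ T, idealAct s P ∈ T)
    (a b z : F ≃ₐ[K₀] F) (ha : a ^ p = 1) (hab : a * b = z * b * a) (hza : z * a = a * z)
    (hzb : z * b = b * z) (X : Type) [AddCommGroup X] [Module (Lam p) X]
    (κ : X →+ (Place F →₀ ℤ)) (hκ : Injective κ) (hκr : Set.range κ = degZero T)
    (hκz : ∀ x, κ (gen p • x) = divAct z (κ x)) :
    ∃ (α : Module.End (Lam p) X) (β : X ≃ₗ[Lam p] X), α ^ p = 1 ∧
      ∀ u, α (β u) = gen p • β (α u) := by
  refine op p hp X _ (F ≃ₐ[K₀] F) (fun s => Finsupp.mapDomain.addMonoidHom (placeAct s))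
    ?_ ?_ κ hκ ?_ a b z hκz ha hab hza hzb
  · intro w
    change Finsupp.mapDomain _ w = w
    rw [show placeAct (1 : F ≃ₐ[K₀] F) = id from funext placeAct_one]
    exact Finsupp.mapDomain_id
  · intro s t w
    change Finsupp.mapDomain _ w = Finsupp.mapDomain _ (Finsupp.mapDomain _ w)
    rw [← Finsupp.mapDomain_comp]
    exact congrArg (fun φ => Finsupp.mapDomain φ w) (funext (placeAct_mul s t))
  · intro s w hw
    have hw' : w ∈ degZero T := hκr ▸ hw
    have hinj : Injective (placeAct s) := by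
      intro x y h
      have h2 := congrArg (placeAct s⁻¹) h
      rwa [← placeAct_mul, ← placeAct_mul, inv_mul_cancel, placeAct_one, placeAct_one] at h2
    have key : Finsupp.mapDomain (placeAct s) w ∈ degZero T := by
      refine ⟨fun P hP => ?_, ?_⟩
      · have e : (Sum.inr P : Place F) = placeAct s (Sum.inr (s⁻¹ • P)) :=
          congrArg Sum.inr (smul_inv_smul s P).symm
        rw [e, Finsupp.mapDomain_apply hinj]
        exact hw'.1 _ (not_mem_inv T hT s P hP)
      · rw [Finsupp.sum_mapDomain_index (fun _ => rfl) (fun _ _ _ => rfl)]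
        exact hw'.2
    rw [← hκr] at key
    exact key

theorem integralOutside_smul (T : Set (Ideal (𝓞 F)))
    (hT : ∀ (s : F ≃ₐ[K₀] F), ∀ P ∈ T, idealAct s P ∈ T)
    (s : F ≃ₐ[K₀] F) (x : F) (hx : IntegralOutside T x) : IntegralOutside T (s x) := by
  intro P hP hPT
  have hP' : (s⁻¹ • P).IsMaximal :=
    Ideal.IsMaximal.map_bijective (MulSemiringAction.toRingHom _ (𝓞 F) s⁻¹)
      (MulAction.bijective s⁻¹) hP
  obtain ⟨r, t, ht, hr⟩ := hx _ hP' (not_mem_inv T hT s P hPT)
  refine ⟨s • r, s • t, ?_, ?_⟩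
  · intro h
    apply ht
    rw [Ideal.mem_inv_pointwise_smul_iff]
    exact h
  · have h := congrArg s hr
    rw [map_mul] at h
    exact h

theorem op_units (p : ℕ) (hp : p.Prime) (T : Set (Ideal (𝓞 F)))
    (hT : ∀ (s : F ≃ₐ[K₀] F), ∀ P ∈ T, idealAct s P ∈ T)
    (a b z : F ≃ₐ[K₀] F) (ha : a ^ p = 1) (hab : a * b = z * b * a) (hza : z * a = a * z)
    (hzb : z * b = b * z) (U : Type) [AddCommGroup U] [Module (Lam p) U]
    (ι : U →+ Additive Fˣ) (hι : Injective ι) (hιr : Set.range ι = sUnits T)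
    (hιz : ∀ u, ι (gen p • u) = unitAct z (ι u)) :
    ∃ (α : Module.End (Lam p) U) (β : U ≃ₗ[Lam p] U), α ^ p = 1 ∧
      ∀ u, α (β u) = gen p • β (α u) := by
  refine op p hp U _ (F ≃ₐ[K₀] F)
    (fun s => MonoidHom.toAdditive (Units.map (s : F →* F))) ?_ ?_ ι hι ?_ a b z hιz ha hab hza hzb
  · intro w
    exact Additive.toMul.injective (Units.ext rfl)
  · intro s t w
    exact Additive.toMul.injective (Units.ext rfl)
  · intro s w hw
    have h : w ∈ sUnits T := hιr ▸ hw
    have key : unitAct s w ∈ sUnits T :=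
      ⟨integralOutside_smul T hT s _ h.1, integralOutside_smul T hT s _ h.2⟩
    rw [← hιr] at key
    exact key

end Pool.Agent.Lib.MP_d74a39_nt
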