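import Pool.Agent.Lib.MP_d74a39_nt.Stmt

open Function

namespace Pool.Agent.Lib.MP_d74a39_nt

/-- The integral group ring of a commutative group. -/
abbrev LamG (G : Type) [CommGroup G] : Type := MonoidAlgebra ℤ G

/-- A group element, as an element of the group ring. -/
noncomputable def ofG {G : Type} [CommGroup G] (g : G) : LamG G := MonoidAlgebra.of ℤ G g

/-- The group ring with the order of `G` and `1 - w` inverted. -/
abbrev RG {G : Type} [CommGroup G] (w : G) : Type :=
  Localization.Away (((Nat.card G : ℕ) : LamG G) * (1 - ofG w))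

/-- `φ` is injective, `w` has order `p`, `a ^ p = 1`, `a b = φ(w) b a`, and the image of `φ`
commutes with `a` and `b`. -/
def HeisG {G Γ : Type} [CommGroup G] [Group Γ] (p : ℕ) (φ : G →* Γ) (w : G) (a b : Γ) : Prop :=
  Injective φ ∧ orderOf w = p ∧ a ^ p = 1 ∧ a * b = φ w * b * a ∧
    ∀ g, φ g * a = a * φ g ∧ φ g * b = b * φ g

/-- `U` is additively identified with the subset `D` of `W`, each `g` acting on it as `ρ (φ g)`. -/
def IsModG {G Γ : Type} [CommGroup G] (φ : G → Γ) {W : Type} [AddCommGroup W] (ρ : Γ → W → W)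
    (D : Set W) (U : ModuleCat.{0} (LamG G)) : Prop :=
  ∃ ι : U →+ W, Injective ι ∧ Set.range ι = D ∧ ∀ g u, ι (ofG g • u) = ρ (φ g) (ι u)

end Pool.Agent.Lib.MP_d74a39_nt
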