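import Pool.Agent.Lib.MP_d74a39_nt.GenDefs
import Pool.Agent.Lib.MP_d74a39_nt.Field
import Pool.Agent.Lib.MP_d74a39_nt.Eig
import Pool.Agent.Lib.MP_d74a39_nt.Sch
import Pool.Agent.Lib.MP_d74a39_nt.Proj

open Function TensorProduct NumberField Pointwise

namespace Pool.Agent.Lib.MP_d74a39_nt

variable {G : Type} [CommGroup G]

theorem opG_lin (U : Type) [AddCommGroup U] [Module (LamG G) U]
    (f : U →+ U) (hf : ∀ (g : G) u, f (ofG g • u) = ofG g • f u) (c : LamG G) :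
    ∀ u, f (c • u) = c • f u := by
  refine MonoidAlgebra.induction_on (motive := fun c => ∀ u, f (c • u) = c • f u) c ?_ ?_ ?_
  · intro g u
    exact hf g u
  · intro x y hx hy u
    rw [add_smul, map_add, hx, hy, add_smul]
  · intro r x hx u
    have e : ∀ v : U, (r • x) • v = r • (x • v) := fun v => by
      rw [zsmul_eq_mul, mul_smul, Int.cast_smul_eq_zsmul]
    rw [e, map_zsmul, hx, e]

theorem opG (p : ℕ) (U W Γ : Type) [AddCommGroup U] [Module (LamG G) U]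
    [AddCommGroup W] [Group Γ] (ρ : Γ → W →+ W) (h1 : ∀ w, ρ 1 w = w)
    (hmul : ∀ s t w, ρ (s * t) w = ρ s (ρ t w)) (ι : U →+ W) (hι : Function.Injective ι)
    (hst : ∀ s w, w ∈ ι.range → ρ s w ∈ ι.range) (φ : G →* Γ) (w : G) (a b : Γ)
    (hz : ∀ g u, ι (ofG g • u) = ρ (φ g) (ι u)) (H : HeisG p φ w a b) :
    ∃ (α : Module.End (LamG G) U) (β : U ≃ₗ[LamG G] U), α ^ p = 1 ∧
      ∀ u, α (β u) = ofG w • β (α u) := by
  obtain ⟨-, -, ha, hab, hc⟩ := H
  have hex : ∀ (s : Γ) (u : U), ∃ v : U, ι v = ρ s (ι u) := fun s u => hst s (ι u) ⟨u, rfl⟩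
  choose F hF using hex
  have hL : ∀ s : Γ, (∀ g, φ g * s = s * φ g) →
      ∃ L : U →ₗ[LamG G] U, ∀ u, ι (L u) = ρ s (ι u) := by
    intro s hs
    let f : U →+ U := AddMonoidHom.mk' (F s) fun x y => hι (by
      rw [hF, map_add, map_add, map_add, hF, hF])
    have hf : ∀ (g : G) u, f (ofG g • u) = ofG g • f u := fun g u => hι (by
      show ι (F s (ofG g • u)) = ι (ofG g • F s u)
      rw [hF, hz, hz, hF, ← hmul, ← hmul, hs])
    exact ⟨{ toFun := f, map_add' := f.map_add, map_smul' := fun c u => opG_lin U f hf c u },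
      fun u => hF s u⟩
  obtain ⟨α, hα⟩ := hL a fun g => (hc g).1
  obtain ⟨β, hβ⟩ := hL b fun g => (hc g).2
  obtain ⟨γ, hγ⟩ := hL b⁻¹ fun g => Commute.inv_right (show Commute (φ g) b from (hc g).2)
  have hk : ∀ (k : ℕ) (u : U), ι ((α ^ k) u) = ρ (a ^ k) (ι u) := by
    intro k
    induction k with
    | zero => intro u; simp [h1]
    | succ k ih => intro u; rw [pow_succ', Module.End.mul_apply, hα, ih, pow_succ', hmul]
  refine ⟨α, LinearEquiv.ofLinearMap β γ ?_ ?_, ?_, ?_⟩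
  · ext u
    apply hι
    rw [LinearMap.comp_apply, hβ, hγ, ← hmul, mul_inv_cancel, h1, LinearMap.id_apply]
  · ext u
    apply hι
    rw [LinearMap.comp_apply, hγ, hβ, ← hmul, inv_mul_cancel, h1, LinearMap.id_apply]
  · ext u
    apply hι
    rw [hk, ha, h1, Module.End.one_apply]
  · intro u
    apply hι
    show ι (α (β u)) = ι (ofG w • β (α u))
    rw [hα, hβ, hz, hβ, hα, ← hmul, ← hmul, ← hmul, hab]

theorem unitsG (w : G) : IsUnit ((Nat.card G : ℕ) : RG w) ∧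
    IsUnit (1 - algebraMap (LamG G) (RG w) (ofG w)) := by
  have h := IsLocalization.Away.algebraMap_isUnit (S := RG w)
    (((Nat.card G : ℕ) : LamG G) * (1 - ofG w))
  rw [map_mul, map_natCast, map_sub, map_one] at h
  exact ⟨isUnit_of_mul_isUnit_left h, isUnit_of_mul_isUnit_right h⟩

theorem powerG (p : ℕ) (hp : p.Prime) (w : G) (hw : orderOf w = p) (U : Type) [AddCommGroup U]
    [Module (LamG G) U] (α : Module.End (LamG G) U) (β : U ≃ₗ[LamG G] U) (hα : α ^ p = 1)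
    (h : ∀ u, α (β u) = ofG w • β (α u)) :
    ∃ M₀ : Submodule (RG w) (RG w ⊗[LamG G] U),
      Nonempty ((RG w ⊗[LamG G] U) ≃ₗ[RG w] (Fin p → M₀)) := by
  have hζ : (algebraMap (LamG G) (RG w) (ofG w)) ^ p = 1 := by
    have e : (ofG w) ^ p = 1 := by
      unfold ofG
      rw [← map_pow, ← hw, pow_orderOf_eq_one, map_one]
    rw [← map_pow, e, map_one]
  have hpu : IsUnit (p : RG w) := by
    obtain ⟨k, hk⟩ : p ∣ Nat.card G := hw ▸ orderOf_dvd_natCard w
    have h1 : IsUnit ((p : RG w) * (k : RG w)) := by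
      rw [← Nat.cast_mul, ← hk]
      exact (unitsG w).1
    exact isUnit_of_mul_isUnit_left h1
  refine eig (RG w) p hp _ hζ (unitsG w).2 hpu _
    (α.baseChange (RG w)) (β.baseChange (LamG G) (RG w) U U) ?_ ?_
  · rw [← LinearMap.baseChange_pow, hα, LinearMap.baseChange_one]
  · intro m
    induction m using TensorProduct.induction_on with
    | zero => simp
    | add x y hx hy => simp only [map_add, smul_add, hx, hy]
    | tmul r u =>
      simp only [LinearEquiv.baseChange_tmul, LinearMap.baseChange_tmul, h, algebraMap_smul,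
        TensorProduct.tmul_smul]

theorem coreG [Finite G] (p : ℕ) (hp : p.Prime) (w : G) (hw : orderOf w = p)
    (U A C B X P₀ P₁ Q₀ Q₁ : ModuleCat.{0} (LamG G)) [Module.Free ℤ X]
    (hU : ∃ (α : Module.End (LamG G) U) (β : U ≃ₗ[LamG G] U), α ^ p = 1 ∧
      ∀ u, α (β u) = ofG w • β (α u))
    (hX : ∃ (α : Module.End (LamG G) X) (β : X ≃ₗ[LamG G] X), α ^ p = 1 ∧
      ∀ u, α (β u) = ofG w • β (α u))
    (s1 : ShortEx (LamG G) U A C) (s2 : ShortEx (LamG G) C B X)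
    (r1 : Resol (LamG G) A P₀ P₁) (r2 : Resol (LamG G) B Q₀ Q₁) :
    IsMultiple (LamG G) (RG w) p P₀ P₁ Q₀ Q₁ := by
  obtain ⟨i, q, hi, hiq, hq⟩ := s1
  obtain ⟨j, π, hj, hjπ, hπ⟩ := s2
  obtain ⟨⟨h1, h2⟩, ⟨h3, h4⟩, f, g, hf, hfg, hg⟩ := r1
  obtain ⟨⟨h5, h6⟩, ⟨h7, h8⟩, f', g', hf', hfg', hg'⟩ := r2
  have hid : Function.Exact i (j ∘ₗ q) := by
    intro y
    rw [← hiq y, LinearMap.comp_apply, map_eq_zero_iff j hj]
  have hdπ : Function.Exact (j ∘ₗ q) π := by
    intro y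
    rw [hjπ y]
    constructor
    · rintro ⟨c, rfl⟩
      obtain ⟨x, rfl⟩ := hq c
      exact ⟨x, rfl⟩
    · rintro ⟨x, rfl⟩
      exact ⟨q x, rfl⟩
  obtain ⟨α, β, k1, k2⟩ := hU
  obtain ⟨α', β', k1', k2'⟩ := hX
  obtain ⟨U₀, ⟨eU⟩⟩ := powerG p hp w hw U α β k1 k2
  obtain ⟨X₀, ⟨eX⟩⟩ := powerG p hp w hw X α' β' k1' k2'
  have := Fintype.ofFinite G
  have := proj_gen G (RG w) (by rw [← Nat.card_eq_fintype_card]; exact (unitsG w).1) X
  have : Module.Flat (LamG G) (RG w) :=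
    IsLocalization.flat (RG w) (Submonoid.powers (((Nat.card G : ℕ) : LamG G) * (1 - ofG w)))
  obtain ⟨N, N', _, _, _, _, n1, n2, n3, n4, ⟨e⟩⟩ :=
    sch (RG w) p hp.ne_zero (RG w ⊗[LamG G] U) (RG w ⊗[LamG G] A) (RG w ⊗[LamG G] B)
    (RG w ⊗[LamG G] X) (RG w ⊗[LamG G] P₀) (RG w ⊗[LamG G] P₁) (RG w ⊗[LamG G] Q₀)
    (RG w ⊗[LamG G] Q₁) U₀ X₀ (i.baseChange (RG w)) ((j ∘ₗ q).baseChange (RG w))
    (π.baseChange (RG w))
    (Module.Flat.lTensor_preserves_injective_linearMap (M := RG w) i hi)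
    (Module.Flat.lTensor_exact (RG w) hid) (Module.Flat.lTensor_exact (RG w) hdπ)
    (LinearMap.lTensor_surjective (RG w) hπ)
    (f.baseChange (RG w)) (g.baseChange (RG w))
    (Module.Flat.lTensor_preserves_injective_linearMap (M := RG w) f hf)
    (Module.Flat.lTensor_exact (RG w) hfg) (LinearMap.lTensor_surjective (RG w) hg)
    (f'.baseChange (RG w)) (g'.baseChange (RG w))
    (Module.Flat.lTensor_preserves_injective_linearMap (M := RG w) f' hf')
    (Module.Flat.lTensor_exact (RG w) hfg') (LinearMap.lTensor_surjective (RG w) hg') eU eX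
  exact ⟨ModuleCat.of _ N, ModuleCat.of _ N', ⟨n1, n3⟩, ⟨n2, n4⟩, ⟨e.toModuleIso⟩⟩

variable {K₀ F : Type} [Field K₀] [Field F] [Algebra K₀ F]

theorem opG_places (p : ℕ) (T : Set (Ideal (𝓞 F)))
    (hT : ∀ (s : F ≃ₐ[K₀] F), ∀ P ∈ T, idealAct s P ∈ T) (φ : G →* (F ≃ₐ[K₀] F)) (w : G)
    (a b : F ≃ₐ[K₀] F) (H : HeisG p φ w a b) (X : Type) [AddCommGroup X] [Module (LamG G) X]
    (κ : X →+ (Place F →₀ ℤ)) (hκ : Injective κ) (hκr : Set.range κ = degZero T)
    (hκz : ∀ g x, κ (ofG g • x) = divAct (φ g) (κ x)) :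
    ∃ (α : Module.End (LamG G) X) (β : X ≃ₗ[LamG G] X), α ^ p = 1 ∧
      ∀ u, α (β u) = ofG w • β (α u) := by
  refine opG p X _ (F ≃ₐ[K₀] F) (fun s => Finsupp.mapDomain.addMonoidHom (placeAct s))
    ?_ ?_ κ hκ ?_ φ w a b hκz H
  · intro c
    change Finsupp.mapDomain _ c = c
    rw [show placeAct (1 : F ≃ₐ[K₀] F) = id from funext placeAct_one]
    exact Finsupp.mapDomain_id
  · intro s t c
    change Finsupp.mapDomain _ c = Finsupp.mapDomain _ (Finsupp.mapDomain _ c)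
    rw [← Finsupp.mapDomain_comp]
    exact congrArg (fun ψ => Finsupp.mapDomain ψ c) (funext (placeAct_mul s t))
  · intro s c hc
    have hc' : c ∈ degZero T := hκr ▸ hc
    have hinj : Injective (placeAct s) := by
      intro x y h
      have h2 := congrArg (placeAct s⁻¹) h
      rwa [← placeAct_mul, ← placeAct_mul, inv_mul_cancel, placeAct_one, placeAct_one] at h2
    have key : Finsupp.mapDomain (placeAct s) c ∈ degZero T := by
      refine ⟨fun P hP => ?_, ?_⟩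
      · have e : (Sum.inr P : Place F) = placeAct s (Sum.inr (s⁻¹ • P)) :=
          congrArg Sum.inr (smul_inv_smul s P).symm
        rw [e, Finsupp.mapDomain_apply hinj]
        exact hc'.1 _ (not_mem_inv T hT s P hP)
      · rw [Finsupp.sum_mapDomain_index (fun _ => rfl) (fun _ _ _ => rfl)]
        exact hc'.2
    rw [← hκr] at key
    exact key

theorem opG_units (p : ℕ) (T : Set (Ideal (𝓞 F)))
    (hT : ∀ (s : F ≃ₐ[K₀] F), ∀ P ∈ T, idealAct s P ∈ T) (φ : G →* (F ≃ₐ[K₀] F)) (w : G)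
    (a b : F ≃ₐ[K₀] F) (H : HeisG p φ w a b) (U : Type) [AddCommGroup U] [Module (LamG G) U]
    (ι : U →+ Additive Fˣ) (hι : Injective ι) (hιr : Set.range ι = sUnits T)
    (hιz : ∀ g u, ι (ofG g • u) = unitAct (φ g) (ι u)) :
    ∃ (α : Module.End (LamG G) U) (β : U ≃ₗ[LamG G] U), α ^ p = 1 ∧
      ∀ u, α (β u) = ofG w • β (α u) := by
  refine opG p U _ (F ≃ₐ[K₀] F)
    (fun s => MonoidHom.toAdditive (Units.map (s : F →* F))) ?_ ?_ ι hι ?_ φ w a b hιz H
  · intro c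
    exact Additive.toMul.injective (Units.ext rfl)
  · intro s t c
    exact Additive.toMul.injective (Units.ext rfl)
  · intro s c hc
    have h : c ∈ sUnits T := hιr ▸ hc
    have key : unitAct s c ∈ sUnits T :=
      ⟨integralOutside_smul T hT s _ h.1, integralOutside_smul T hT s _ h.2⟩
    rw [← hιr] at key
    exact key

end Pool.Agent.Lib.MP_d74a39_nt
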