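import Pool.Agent.Lib.MP_d74a39_nt.Defs

namespace Pool.Agent.Lib.MP_d74a39_nt

theorem op_lin (p : ℕ) (hp : p.Prime) (U : Type) [AddCommGroup U] [Module (Lam p) U]
    (f : U →+ U) (hf : ∀ u, f (gen p • u) = gen p • f u) (c : Lam p) :
    ∀ u, f (c • u) = c • f u := by
  have : NeZero p := ⟨hp.ne_zero⟩
  have hpow : ∀ (k : ℕ) (u : U), f (gen p ^ k • u) = gen p ^ k • f u := by
    intro k
    induction k with
    | zero => intro u; simp
    | succ k ih => intro u; rw [pow_succ', mul_smul, hf, ih, mul_smul]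
  refine MonoidAlgebra.induction_on (motive := fun c => ∀ u, f (c • u) = c • f u) c ?_ ?_ ?_
  · intro g u
    have e : MonoidAlgebra.of ℤ (Multiplicative (ZMod p)) g = gen p ^ (Multiplicative.toAdd g).val := by
      rw [gen, ← map_pow, ← ofAdd_nsmul, nsmul_eq_mul, mul_one, ZMod.natCast_zmod_val,
        ofAdd_toAdd]
    rw [e, hpow]
  · intro x y hx hy u
    rw [add_smul, map_add, hx, hy, add_smul]
  · intro r x hx u
    have e : ∀ v : U, (r • x) • v = r • (x • v) := fun v => by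
      rw [zsmul_eq_mul, mul_smul, Int.cast_smul_eq_zsmul]
    rw [e, map_zsmul, hx, e]

theorem op (p : ℕ) (hp : p.Prime) (U W Γ : Type) [AddCommGroup U] [Module (Lam p) U]
    [AddCommGroup W] [Group Γ] (ρ : Γ → W →+ W) (h1 : ∀ w, ρ 1 w = w)
    (hmul : ∀ s t w, ρ (s * t) w = ρ s (ρ t w)) (ι : U →+ W) (hι : Function.Injective ι)
    (hst : ∀ s w, w ∈ ι.range → ρ s w ∈ ι.range) (a b z : Γ)
    (hz : ∀ u, ι (gen p • u) = ρ z (ι u)) (ha : a ^ p = 1) (hab : a * b = z * b * a)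
    (hza : z * a = a * z) (hzb : z * b = b * z) :
    ∃ (α : Module.End (Lam p) U) (β : U ≃ₗ[Lam p] U), α ^ p = 1 ∧
      ∀ u, α (β u) = gen p • β (α u) := by
  have hex : ∀ (s : Γ) (u : U), ∃ v : U, ι v = ρ s (ι u) := fun s u => hst s (ι u) ⟨u, rfl⟩
  choose F hF using hex
  have hL : ∀ s : Γ, z * s = s * z → ∃ L : U →ₗ[Lam p] U, ∀ u, ι (L u) = ρ s (ι u) := by
    intro s hs
    let f : U →+ U := AddMonoidHom.mk' (F s) fun x y => hι (by
      rw [hF, map_add, map_add, map_add, hF, hF])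
    have hf : ∀ u, f (gen p • u) = gen p • f u := fun u => hι (by
      show ι (F s (gen p • u)) = ι (gen p • F s u)
      rw [hF, hz, hz, hF, ← hmul, ← hmul, hs])
    exact ⟨{ toFun := f, map_add' := f.map_add, map_smul' := fun c u => op_lin p hp U f hf c u },
      fun u => hF s u⟩
  obtain ⟨α, hα⟩ := hL a hza
  obtain ⟨β, hβ⟩ := hL b hzb
  obtain ⟨γ, hγ⟩ := hL b⁻¹ (Commute.inv_right (show Commute z b from hzb))
  have hk : ∀ (k : ℕ) (u : U), ι ((α ^ k) u) = ρ (a ^ k) (ι u) := by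
    intro k
    induction k with
    | zero => intro u; simp [h1]
    | succ k ih => intro u; rw [pow_succ', Module.End.mul_apply, hα, ih, pow_succ', hmul]
  refine ⟨α, LinearEquiv.ofLinearMap β γ ?_ ?_, ?_, ?_⟩
  · ext u
    apply hι
    rw [LinearMap.comp_apply, hβ, hγ, ← hmul, mul_inv_cancel, h1, LinearMap.id_apply]
  · ext u
    apply hι
    rw [LinearMap.comp_apply, hγ, hβ, ← hmul, inv_mul_cancel, h1, LinearMap.id_apply]
  · ext u
    apply hι
    rw [hk, ha, h1, Module.End.one_apply]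
  · intro u
    apply hι
    show ι (α (β u)) = ι (gen p • β (α u))
    rw [hα, hβ, hz, hβ, hα, ← hmul, ← hmul, ← hmul, hab]

end Pool.Agent.Lib.MP_d74a39_nt
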