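import Mathlib

open Function

namespace Pool.Agent.Lib.MP_d74a39_nt

theorem schanuel (R : Type) [CommRing R] (M P P' K K' : Type)
    [AddCommGroup M] [AddCommGroup P] [AddCommGroup P'] [AddCommGroup K] [AddCommGroup K']
    [Module R M] [Module R P] [Module R P'] [Module R K] [Module R K']
    [Module.Projective R P] [Module.Projective R P']
    (f : K →ₗ[R] P) (g : P →ₗ[R] M) (hf : Injective f) (hfg : Exact f g) (hg : Surjective g)
    (f' : K' →ₗ[R] P') (g' : P' →ₗ[R] M) (hf' : Injective f') (hfg' : Exact f' g')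
    (hg' : Surjective g') :
    Nonempty ((K × P') ≃ₗ[R] (P × K')) := by
  obtain ⟨s, hs⟩ := Module.projective_lifting_property g g' hg
  obtain ⟨t, ht⟩ := Module.projective_lifting_property g' g hg'
  have hs' : ∀ x, g (s x) = g' x := fun x => by rw [← hs]; rfl
  have ht' : ∀ x, g' (t x) = g x := fun x => by rw [← ht]; rfl
  have hgf : ∀ k, g (f k) = 0 := fun k => hfg.apply_apply_eq_zero k
  have hgf' : ∀ k, g' (f' k) = 0 := fun k => hfg'.apply_apply_eq_zero k
  let Y : Submodule R (P × P') := LinearMap.ker (g.coprod (-g'))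
  have hY : ∀ y : P × P', y ∈ Y ↔ g y.1 = g' y.2 := fun y => by
    simp only [Y, LinearMap.mem_ker, LinearMap.coprod_apply, LinearMap.neg_apply]
    exact add_neg_eq_zero
  let a : (K × P') →ₗ[R] (P × P') := (f.coprod s).prod (LinearMap.snd R K P')
  let b : (P × K') →ₗ[R] (P × P') := (LinearMap.fst R P K').prod (t.coprod f')
  have ha : ∀ x : K × P', a x = (f x.1 + s x.2, x.2) := fun x => rfl
  have hb : ∀ x : P × K', b x = (x.1, t x.1 + f' x.2) := fun x => rfl
  have haY : ∀ x, a x ∈ Y := fun x => by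
    rw [hY, ha]; simp only [map_add, hgf, hs', zero_add]
  have hbY : ∀ x, b x ∈ Y := fun x => by
    rw [hY, hb]; simp only [map_add, hgf', ht', add_zero]
  have hai : Bijective (a.codRestrict Y haY) := by
    constructor
    · intro x y h
      have h1 : a x = a y := congrArg Subtype.val h
      rw [ha, ha, Prod.mk.injEq] at h1
      obtain ⟨h2, h3⟩ := h1
      rw [h3] at h2
      exact Prod.ext (hf (add_right_cancel h2)) h3
    · rintro ⟨y, hy⟩
      have h1 : g (y.1 - s y.2) = 0 := by rw [map_sub, hs', (hY y).1 hy, sub_self]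
      obtain ⟨k, hk⟩ := (hfg _).1 h1
      refine ⟨(k, y.2), Subtype.ext ?_⟩
      show a (k, y.2) = y
      rw [ha]
      exact Prod.ext (by simp only [hk, sub_add_cancel]) rfl
  have hbi : Bijective (b.codRestrict Y hbY) := by
    constructor
    · intro x y h
      have h1 : b x = b y := congrArg Subtype.val h
      rw [hb, hb, Prod.mk.injEq] at h1
      obtain ⟨h2, h3⟩ := h1
      rw [h2] at h3
      exact Prod.ext h2 (hf' (add_left_cancel h3))
    · rintro ⟨y, hy⟩
      have h1 : g' (y.2 - t y.1) = 0 := by rw [map_sub, ht', (hY y).1 hy, sub_self]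
      obtain ⟨k, hk⟩ := (hfg' _).1 h1
      refine ⟨(y.1, k), Subtype.ext ?_⟩
      show b (y.1, k) = y
      rw [hb]
      exact Prod.ext rfl (by simp only [hk, add_sub_cancel])
  exact ⟨(LinearEquiv.ofBijective _ hai).trans (LinearEquiv.ofBijective _ hbi).symm⟩

end Pool.Agent.Lib.MP_d74a39_nt
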